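import Pool.Agent.W2helper91.RK.Low
import Pool.Agent.W2helper91.RK.Up

/-!
# Defining numbers of `K_n × K_n` for all numbers of colours
-/

set_option autoImplicit false

namespace Pool.Agent.Results.MP_0e4c8c_co.AllNumbersOfColours

open Finset Pool.Agent.W2helper91.RK

/-- The graph of the problem: the Cartesian product of two complete graphs on `n` vertices
(Mathlib's `SimpleGraph.boxProd`). -/
abbrev rook (n : ℕ) : SimpleGraph (Fin n × Fin n) :=
  SimpleGraph.boxProd (⊤ : SimpleGraph (Fin n)) (⊤ : SimpleGraph (Fin n))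

/-- `S` is the support of a defining set of a `k`-colouring of `G`: for some assignment
`p : S → Fin k` exactly one proper `k`-colouring of `G` restricts to `p` on `S`. -/
def IsDefiningSet {V : Type*} (G : SimpleGraph V) (k : ℕ) (S : Finset V) : Prop :=
  ∃ p : S → Fin k, ∃! c : G.Coloring (Fin k), ∀ v : S, c v = p v

/-- The defining number `d(G, k)`: the least size of a defining set. -/
noncomputable def definingNumber {V : Type*} (G : SimpleGraph V) (k : ℕ) : ℕ :=
  sInf {m | ∃ S : Finset V, S.card = m ∧ IsDefiningSet G k S}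

theorem adj_of (n : ℕ) (v w : Fin n × Fin n) (h : adj v w) : (rook n).Adj v w := by
  rcases h with h | h
  · exact SimpleGraph.boxProd_adj.mpr (Or.inr ⟨by simpa using h.2, h.1⟩)
  · exact SimpleGraph.boxProd_adj.mpr (Or.inl ⟨by simpa using h.2, h.1⟩)

theorem of_adj (n : ℕ) (v w : Fin n × Fin n) (h : (rook n).Adj v w) : adj v w := by
  rcases SimpleGraph.boxProd_adj.mp h with h | h
  · exact Or.inr ⟨h.2, by simpa using h.1⟩
  · exact Or.inl ⟨h.2, by simpa using h.1⟩

/-- there are defining sets -/
theorem exists_defining (n k : ℕ) (h : n ≤ k) :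
    IsDefiningSet (rook n) k (univ : Finset (Fin n × Fin n)) := by
  let c0 : (rook n).Coloring (Fin k) := SimpleGraph.Coloring.mk
    (fun v => Fin.castLE h (Lt v.1 v.2)) (by
      rintro ⟨i, j⟩ ⟨i', j'⟩ hadj he
      have he2 : Lt i j = Lt i' j' := Fin.castLE_injective h he
      rcases of_adj n _ _ hadj with h3 | h3
      · simp only at h3
        obtain ⟨rfl, h4⟩ := h3
        exact h4 (row_inj _ he2)
      · simp only at h3
        obtain ⟨rfl, h4⟩ := h3
        exact h4 (col_inj _ he2))
  refine ⟨fun v => c0 v, c0, fun v => rfl, ?_⟩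
  intro c' hc'
  ext v
  exact congrArg Fin.val (hc' ⟨v, mem_univ v⟩)

/-- the size of a defining set is at least `n (k - n)` -/
theorem lower (n k : ℕ) (h1 : n ≤ k) (h2 : k ≤ 2 * n - 1) (S : Finset (Fin n × Fin n))
    (hS : IsDefiningSet (rook n) k S) : n * (k - n) ≤ S.card := by
  obtain ⟨p, c, hc, hu⟩ := hS
  have key := card_le k (fun v => c v) Sᶜ (fun v w hvw => c.valid (adj_of n v w hvw)) (by
    intro g hg hgS
    let c' : (rook n).Coloring (Fin k) :=
      SimpleGraph.Coloring.mk g (fun {v w} hvw => hg v w (of_adj n v w hvw))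
    have : c' = c := by
      apply hu
      intro v
      rw [← hc v]
      exact hgS v.1 (by simp)
    funext v
    exact congrArg (fun f => f v) this)
  have hcard : S.card + (Sᶜ).card = n * n := by
    rw [card_add_card_compl, Fintype.card_prod, Fintype.card_fin]
  obtain ⟨d, rfl⟩ : ∃ d, k = n + d := ⟨k - n, by omega⟩
  have e1 : n + d - n = d := by omega
  rw [e1]
  rcases key with key | key
  · rw [mul_add, sq] at key
    omega
  · have : n * d ≤ n * n := Nat.mul_le_mul_left n (by omega)
    omega

/-- **Theorem.** (1) `d(K_n × K_n, k) ≥ n (k - n)` for all `n ≤ k ≤ 2 n - 1`. (2) If `n = q t` with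
`q` even then `d(K_n × K_n, 2 n - t) ≤ n (n - t) + q ⌊t² / 4⌋`; here `n (n - t) = n (k - n)` for
`k = 2 n - t`, so the lower bound (1) is `n (n - t)`. -/
theorem result :
    (∀ n k : ℕ, n ≤ k → k ≤ 2 * n - 1 → n * (k - n) ≤ definingNumber (rook n) k) ∧
    (∀ q t : ℕ, Even q → 0 < q → 0 < t →
      (q * t) * (q * t - t) ≤ definingNumber (rook (q * t)) (2 * (q * t) - t) ∧
      definingNumber (rook (q * t)) (2 * (q * t) - t) ≤
        (q * t) * (q * t - t) + q * (t ^ 2 / 4)) := by
  have hlow : ∀ n k : ℕ, n ≤ k → k ≤ 2 * n - 1 → n * (k - n) ≤ definingNumber (rook n) k := by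
    intro n k h1 h2
    have hne : {m | ∃ S : Finset (Fin n × Fin n), S.card = m ∧
        IsDefiningSet (rook n) k S}.Nonempty := ⟨_, univ, rfl, exists_defining n k h1⟩
    obtain ⟨S, hS, hd⟩ := Nat.sInf_mem hne
    have h3 := lower n k h1 h2 S hd
    have h4 : definingNumber (rook n) k = S.card := hS.symm
    rw [h4]
    exact h3
  refine ⟨hlow, ?_⟩
  intro q t hq hq0 ht
  have hqt : t ≤ q * t := Nat.le_mul_of_pos_left t hq0
  constructor
  · have := hlow (q * t) (2 * (q * t) - t) (by omega) (by omega)
    have e : 2 * (q * t) - t - q * t = q * t - t := by omega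
    rwa [e] at this
  · obtain ⟨S, hS, hd⟩ := upper_exists q t (q * t) (2 * (q * t) - t) hq hq0 rfl (by omega)
    have hle : definingNumber (rook (q * t)) (2 * (q * t) - t) ≤ S.card :=
      Nat.sInf_le ⟨S, rfl, hd⟩
    refine le_trans hle ?_
    have h1 := card_TT t
    have h2 : q * (TT t).card + q * (t ^ 2 / 4) = q * t ^ 2 := by rw [← mul_add, h1]
    have h3 : (q * t) * (q * t - t) + q * t ^ 2 = (q * t) ^ 2 := by
      obtain ⟨d, hd⟩ : ∃ d, q * t = t + d := ⟨q * t - t, by omega⟩
      have e : q * t - t = d := by omega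
      rw [e]
      have e2 : q * t ^ 2 = (q * t) * t := by ring
      rw [e2, hd]
      ring
    omega

end Pool.Agent.Results.MP_0e4c8c_co.AllNumbersOfColours
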